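import Pool.Agent.L7h49.EP.MuF

/-!
# Epimorphisms in topological groups into Lie groups with small products have dense range

Pairs 4 and 5. Let `H` be a locally convex Lie group in which products of arbitrarily many small
elements are controlled by one continuous seminorm: in a chart `e` at `1` with `e 1 = 0`, for every
neighbourhood `M` of `1` there are a continuous seminorm `q` and a modulus `ω` such that
`k₁ ⋯ kₙ ∈ M` whenever `∑ ω (q (e kᵢ)) < 1`. All locally `μ`-convex groups have this property with
`ω t = t`, so all `C⁰`-regular groups, in particular all Banach-Lie groups, diffeomorphism groups of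
compact manifolds and groups of smooth maps into Banach-Lie groups. If the range of a homomorphism
`f : G → H` is not dense, then there are two different continuous homomorphisms `g₁`, `g₂` from `H`
to a Hausdorff topological group with `g₁ ∘ f = g₂ ∘ f`; so `f` is not an epimorphism in the
category of topological groups.

Proof. Let `L` be the closure of the range of `f`. For a continuous seminorm `p` and a modulus `ω`
let `ℓ_p k = min 1 (ω (p (e k)))` for small `k` and `ℓ_p k = 1` otherwise. The multiplication is of
class `C¹`, hence locally Lipschitz, and so for every `k₀` and every `p` there is `q` with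
`ℓ_p (k m k⁻¹) ≤ ℓ_q m` for all `m` and all `k` near `k₀`. Let `Φ` be the set of the functions `F` on
`H` which are right invariant under `L` and satisfy `F (k x) ≤ F x + ℓ_p k` for some `p`, and let `V`
be the group of the functions `u` on `Φ` for which the translates of `u` depend continuously on the
translation, with the topology of uniform convergence on the sets of functions `F` with the same `p`.
Then `H` acts continuously on `V`, and the evaluation `δ` at `1` is fixed by `L`. The two
homomorphisms to `K = V ⋊ H` are the inclusion and its conjugate by `δ`. They are different, because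
the distance of the coset `x L` from `L`, with the length `ℓ_q`, is a function of `Φ` which vanishes
at `1` but not at a given point outside `L`, for a suitable `q`, by the small products.
-/

open Filter Topology Set

namespace Pool.Agent.Results.MP_862e0f_al.SmallProductGroups

open Pool.Agent.L7h49.EP

universe v w x

theorem result {W : Type v} [AddCommGroup W] [Module ℝ W] [TopologicalSpace W]
    [IsTopologicalAddGroup W] [ContinuousSMul ℝ W] [LocallyConvexSpace ℝ W] [T2Space W]
    {H : Type w} [Group H] [TopologicalSpace H] [IsTopologicalGroup H] [T2Space H]
    (S : LieStr W H) (hS : ∃ e ∈ S.atlas, SmallProducts e)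
    {G : Type x} [Group G] (f : G →* H) (hf : ¬ DenseRange f) :
    ∃ (K : Type w) (_ : Group K) (_ : TopologicalSpace K) (_ : IsTopologicalGroup K)
      (_ : T2Space K) (g₁ g₂ : H →* K), Continuous g₁ ∧ Continuous g₂ ∧
      g₁.comp f = g₂.comp f ∧ g₁ ≠ g₂ := by
  obtain ⟨e, he, hμ⟩ := hS
  have h1 : ∃ h₀ : H, h₀ ∉ f.range.topologicalClosure := by
    by_contra h
    push Not at h
    exact hf fun x => h x
  obtain ⟨h₀, hh⟩ := h1
  obtain ⟨K, i1, i2, i3, i4, g₁, g₂, c1, c2, h2, h3⟩ := mu_core S he hμ
    f.range.topologicalClosure f.range.isClosed_topologicalClosure hh
  refine ⟨K, i1, i2, i3, i4, g₁, g₂, c1, c2, MonoidHom.ext fun x => ?_, h3⟩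
  exact h2 _ (f.range.le_topologicalClosure ⟨x, rfl⟩)

end Pool.Agent.Results.MP_862e0f_al.SmallProductGroups
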